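import Pool.Agent.Helper15.EP.St

set_option autoImplicit false

/-!
Project EP (MP_16cbc0_nt), module UPS: expansion of periodic functions on the units modulo `r`,
with a sup bound for the coefficients.  (The first part follows Helper98/FC/M_UPR.)
-/

namespace Pool.Agent.Helper29.EP

open Polynomial Pool.Agent.Helper15.FC Pool.Agent.Helper15.EP

private theorem mem_Lc {F : Type} [Field F] [Fintype F] {r x : F[X]} :
    x ∈ Lc r ↔ x.degree < (r.natDegree : WithBot ℕ) ∧ IsCoprime x r := by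
  classical
  unfold Lc
  rw [Finset.mem_filter, mem_Lw]

private theorem ex_rep {F : Type} [Field F] [Fintype F] {r f : F[X]} (hr : r.Monic)
    (hf : IsCoprime f r) : ∃ x ∈ Lc r, r ∣ f - x := by
  by_cases h1 : r = 1
  · subst h1
    refine ⟨0, mem_Lc.2 ⟨by simp, isCoprime_one_right⟩, one_dvd _⟩
  · have hd : r ∣ f - f %ₘ r := by
      refine ⟨f /ₘ r, ?_⟩
      have := Polynomial.modByMonic_add_div f r
      linear_combination -this
    refine ⟨f %ₘ r, mem_Lc.2 ⟨?_, ?_⟩, hd⟩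
    · have := Polynomial.degree_modByMonic_lt f hr
      rwa [Polynomial.degree_eq_natDegree hr.ne_zero] at this
    · obtain ⟨c, hc⟩ := hd
      obtain ⟨a, b, hab⟩ := hf
      refine ⟨a, b + a * c, ?_⟩
      linear_combination hab - a * hc

private theorem uniq_rep {F : Type} [Field F] [Fintype F] {r x y : F[X]} (hr : r.Monic)
    (hx : x ∈ Lc r) (hy : y ∈ Lc r) (h : r ∣ x - y) : x = y := by
  have hx' := (mem_Lc.1 hx).1
  have hy' := (mem_Lc.1 hy).1
  have h1 : (x - y).degree < r.degree := by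
    rw [Polynomial.degree_eq_natDegree hr.ne_zero]
    exact lt_of_le_of_lt (Polynomial.degree_sub_le _ _) (max_lt hx' hy')
  exact sub_eq_zero.1 (Polynomial.eq_zero_of_dvd_of_degree_lt h h1)

private theorem phi_pos' {F : Type} [Field F] [Fintype F] {r : F[X]} (hr : r.Monic) :
    0 < phi r := by
  rw [← card_Lc]
  obtain ⟨x, hx, -⟩ := ex_rep hr (isCoprime_one_left : IsCoprime (1 : F[X]) r)
  exact Finset.card_pos.2 ⟨x, hx⟩

/-- a multiplicative character of a finite commutative ring is bounded by `1` -/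
private theorem norm_mulChar_le_one {R : Type} [CommRing R] [Finite R] (χ : MulChar R ℂ) (x : R) :
    ‖χ x‖ ≤ 1 := by
  by_cases hx : IsUnit x
  · obtain ⟨u, rfl⟩ := hx
    have h1 : (χ (u : R)) ^ (orderOf u) = 1 := by
      rw [← map_pow, ← Units.val_pow_eq_pow_val, pow_orderOf_eq_one, Units.val_one, map_one]
    have h2 : orderOf u ≠ 0 := (orderOf_pos u).ne'
    exact (Complex.norm_eq_one_of_pow_eq_one h1 h2).le
  · rw [MulChar.map_nonunit χ hx, norm_zero]
    exact zero_le_one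

/-- **UPS** (expansion of functions on the units modulo `r`, sup bound) -/
theorem hUPS (hORR : StORR) : StUPS := by
  classical
  intro F _ _ r w hr hper
  haveI : Finite (AdjoinRoot r) := finite_AR hr
  have hφ : (phi r : ℂ) ≠ 0 := Nat.cast_ne_zero.2 (phi_pos' hr).ne'
  -- orthogonality for representatives
  have horth : ∀ f x : F[X], IsCoprime f r → x ∈ Lc r →
      ∑ χ ∈ allF (MulChar (AdjoinRoot r) ℂ), χ (AdjoinRoot.mk r f) *
        (starRingEnd ℂ) (χ (AdjoinRoot.mk r x)) = if r ∣ f - x then (phi r : ℂ) else 0 := by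
    intro f x hf hx
    have h := hORR F r f x hr hf (mem_Lc.1 hx).2
    split_ifs with hd
    · exact h.2.1 hd
    · exact h.2.2 hd
  refine ⟨fun χ => (phi r : ℂ)⁻¹ * ∑ x ∈ Lc r, w x *
    (starRingEnd ℂ) (χ (AdjoinRoot.mk r x)), ?_, ?_, ?_⟩
  · intro f hf
    obtain ⟨x0, hx0, hd0⟩ := ex_rep hr hf
    have h1 : ∑ χ ∈ allF (MulChar (AdjoinRoot r) ℂ),
        ((phi r : ℂ)⁻¹ * ∑ x ∈ Lc r, w x * (starRingEnd ℂ) (χ (AdjoinRoot.mk r x))) *
          χ (AdjoinRoot.mk r f) =
        (phi r : ℂ)⁻¹ * ∑ x ∈ Lc r, w x * (if r ∣ f - x then (phi r : ℂ) else 0) := by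
      have h2 : ∀ x ∈ Lc r, w x * (if r ∣ f - x then (phi r : ℂ) else 0) =
          ∑ χ ∈ allF (MulChar (AdjoinRoot r) ℂ), w x * (χ (AdjoinRoot.mk r f) *
            (starRingEnd ℂ) (χ (AdjoinRoot.mk r x))) := by
        intro x hx
        rw [← horth f x hf hx, Finset.mul_sum]
      rw [Finset.sum_congr rfl h2, Finset.sum_comm, Finset.mul_sum]
      refine Finset.sum_congr rfl fun χ _ => ?_
      rw [mul_assoc, Finset.sum_mul]
      congr 1
      refine Finset.sum_congr rfl fun x _ => ?_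
      ring
    rw [h1, Finset.sum_eq_single x0]
    · rw [if_pos hd0, hper f x0 hd0]
      field_simp
    · intro y hy hne
      rw [if_neg, mul_zero]
      intro hdy
      refine hne (uniq_rep hr hy hx0 ?_)
      have := dvd_sub hd0 hdy
      simpa using this
    · intro h
      exact absurd hx0 h
  · -- sup bound
    intro χ
    change (phi r : ℝ) * ‖(phi r : ℂ)⁻¹ * ∑ x ∈ Lc r, w x *
      (starRingEnd ℂ) (χ (AdjoinRoot.mk r x))‖ ≤ ∑ x ∈ Lc r, ‖w x‖
    have h1 : (phi r : ℝ) * ‖(phi r : ℂ)⁻¹ * ∑ x ∈ Lc r, w x *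
        (starRingEnd ℂ) (χ (AdjoinRoot.mk r x))‖ =
        ‖∑ x ∈ Lc r, w x * (starRingEnd ℂ) (χ (AdjoinRoot.mk r x))‖ := by
      have h2 : (phi r : ℝ) = ‖(phi r : ℂ)‖ := (Complex.norm_natCast _).symm
      rw [h2, ← norm_mul, ← mul_assoc, mul_inv_cancel₀ hφ, one_mul]
    rw [h1]
    refine (norm_sum_le _ _).trans (Finset.sum_le_sum fun x _ => ?_)
    rw [norm_mul, RCLike.norm_conj]
    exact mul_le_of_le_one_right (norm_nonneg _) (norm_mulChar_le_one χ _)
  · change (phi r : ℂ) * ((phi r : ℂ)⁻¹ * ∑ x ∈ Lc r, w x *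
      (starRingEnd ℂ) ((1 : MulChar (AdjoinRoot r) ℂ) (AdjoinRoot.mk r x))) = ∑ x ∈ Lc r, w x
    rw [← mul_assoc, mul_inv_cancel₀ hφ, one_mul]
    refine Finset.sum_congr rfl fun x hx => ?_
    have hu : IsUnit (AdjoinRoot.mk r x) := by
      obtain ⟨a, b, hab⟩ := (mem_Lc.1 hx).2
      have h8 : AdjoinRoot.mk r x * AdjoinRoot.mk r a = 1 := by
        rw [← map_mul, ← map_one (AdjoinRoot.mk r), AdjoinRoot.mk_eq_mk]
        exact ⟨-b, by linear_combination hab⟩
      exact IsUnit.of_mul_eq_one _ h8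
    rw [MulChar.one_apply hu, map_one, mul_one]

end Pool.Agent.Helper29.EP
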