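import Pool.Agent.Helper68.EP.St6

/-!
# Project EP, module GPG: condition `(G_p)` implies the gap condition
-/

set_option autoImplicit false

open MeasureTheory Set Filter Topology
open scoped ENNReal RealInnerProductSpace

namespace Pool.Agent.Helper29.EP

open Pool.Agent.Helper68.EP Pool.Agent.Helper20.RG
open Pool.Agent.Helper68.LM (Pl BB Bd Av HL ft fm DQ)

theorem hGPG : StGPG := by
  intro τ A p hA hp h θ i hi
  have hfin : ∀ i : ℕ, volume {t : ℝ | t ∈ Icc (0 : ℝ) 1 ∧ |τ t - θ| ≤ (2 : ℝ) ^ (-(i : ℤ))} ≠ ∞ := by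
    intro i
    have h1 : volume (Icc (0 : ℝ) 1) < ∞ := by simp
    exact ((measure_mono (fun t ht => ht.1)).trans_lt h1).ne
  have hmono : ∀ i j : ℕ, i ≤ j → elt τ θ j ≤ elt τ θ i := by
    intro i j hij
    apply ENNReal.toReal_mono (hfin i)
    apply measure_mono
    intro t ht
    refine ⟨ht.1, ht.2.trans ?_⟩
    apply zpow_le_zpow_right₀ (by norm_num)
    omega
  have h0 : 0 ≤ elt τ θ i := ENNReal.toReal_nonneg
  have hsum : (i : ℝ) * elt τ θ i ^ p ≤ A := by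
    calc (i : ℝ) * elt τ θ i ^ p = ∑ k ∈ Finset.range i, elt τ θ i ^ p := by simp
      _ ≤ ∑ k ∈ Finset.range i, elt τ θ (k + 1) ^ p := by
        apply Finset.sum_le_sum
        intro k hk
        rw [Finset.mem_range] at hk
        exact Real.rpow_le_rpow h0 (hmono _ _ hk) hp.le
      _ ≤ A := h θ i
  have hi0 : (0 : ℝ) < i := by exact_mod_cast hi
  have h1 : elt τ θ i ^ p ≤ A / i := by
    rw [le_div_iff₀ hi0]
    linarith
  have h2 : elt τ θ i ≤ A ^ (1 / p) * (i : ℝ) ^ (-(1 / p)) := by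
    have h3 := Real.rpow_le_rpow (Real.rpow_nonneg h0 p) h1 (by positivity : (0 : ℝ) ≤ 1 / p)
    rw [← Real.rpow_mul h0, mul_one_div_cancel hp.ne', Real.rpow_one] at h3
    calc elt τ θ i ≤ (A / i) ^ (1 / p) := h3
      _ = A ^ (1 / p) * (i : ℝ) ^ (-(1 / p)) := by
        rw [Real.div_rpow hA.le hi0.le, Real.rpow_neg hi0.le, div_eq_mul_inv]
  calc volume {t : ℝ | t ∈ Icc (0 : ℝ) 1 ∧ |τ t - θ| ≤ (2 : ℝ) ^ (-(i : ℤ))} =
      ENNReal.ofReal (elt τ θ i) := (ENNReal.ofReal_toReal (hfin i)).symm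
    _ ≤ ENNReal.ofReal (A ^ (1 / p) * (i : ℝ) ^ (-(1 / p))) := ENNReal.ofReal_le_ofReal h2

end Pool.Agent.Helper29.EP
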