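import Pool.Agent.Helper68.EP.St3

/-!
# Project EP, module EM2: high points
-/

set_option autoImplicit false

open MeasureTheory Set Filter Topology
open scoped ENNReal RealInnerProductSpace

namespace Pool.Agent.Helper29.EP

open Pool.Agent.Helper68.EP Pool.Agent.Helper20.RG
open Pool.Agent.Helper68.LM (Pl BB Bd Av HL ft fm DQ)
open Pool.Agent.Helper20.RL (RQ Rich BM Fml)

theorem hEM2 (hEFB : StEFB) (hEF1 : StEF1) : StEM2 := by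
  intro P Δ u₁ q u₂ j₂ k₂ W θ θ' E z hS hO hE hq hq1 hz hF hA
  obtain ⟨hT2, j₁, hj₁, k₁, hk, hT1, hL, hsl⟩ := hz
  obtain ⟨⟨hB1, hB2, hB3⟩, hvol, -⟩ := hEF1 P Δ u₁ j₁ k₁ θ E z hS hO hj₁ hE hT1
  have hfl : ((Δ.fl u₁ j₁ : ℕ) : ℤ) ≤ 2 ^ q1 P u₁ := by
    exact_mod_cast (hS.flat u₁ j₁ hO.u1 hj₁).2
  have hz1 : z ∈ Fb E (DD P u₁) (k₁ - 2 ^ q) := hL.1
  have hzE : z ∈ E := (hEFB.1 E (DD P u₁) (k₁ - 2 ^ q)).1 hz1
  have hW : W + 2 ^ q1 P u₁ < k₁ - 2 ^ q := by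
    by_contra hc
    exact hF (hEFB.2.1 E (DD P u₁) (DD P u₁) _ _ (not_lt.1 hc) le_rfl hz1)
  have h2q : (0 : ℤ) < 2 ^ q := by positivity
  have hWB : W ≤ Bc P Δ u₁ j₁ k₁ θ E z + 1 := by linarith
  by_contra hc
  apply hA
  refine ⟨hzE, W, Bc P Δ u₁ j₁ k₁ θ E z + 1, hWB, lt_of_lt_of_le ?_ hvol, not_le.1 hc⟩
  have hθ : 0 < θ := hO.th.1
  have h4 : (0 : ℝ) < (4 : ℝ) ^ (Bc P Δ u₁ j₁ k₁ θ E z + 1) := by positivity
  rw [ENNReal.ofReal_lt_ofReal_iff (by positivity)]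
  nlinarith [mul_pos hθ h4]

end Pool.Agent.Helper29.EP
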