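import Pool.Agent.Helper68.EP.St4

/-!
# Project EP, module EV0: `VM = Vc` for `M = 0`
-/

set_option autoImplicit false

open MeasureTheory Set Filter Topology
open scoped ENNReal RealInnerProductSpace

namespace Pool.Agent.Helper29.EP

open Pool.Agent.Helper68.EP Pool.Agent.Helper20.RG
open Pool.Agent.Helper68.LM (Pl BB Bd Av HL ft fm DQ)
open Pool.Agent.Helper20.RL (RQ Rich BM Fml)

theorem ev0_num {x c : ℝ≥0∞} (hx : x ≠ ∞) (h : x ≤ c + ENNReal.ofReal (1 / 4) * x) : x ≤ 2 * c := by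
  by_cases hc : c = ∞
  · rw [hc]; simp
  lift x to NNReal using hx
  lift c to NNReal using hc
  have h4 : ENNReal.ofReal (1 / 4) = ((1 / 4 : NNReal) : ℝ≥0∞) := by
    rw [← ENNReal.ofReal_coe_nnreal]
    norm_num
  rw [h4] at h
  have h' : x ≤ c + (1 / 4 : NNReal) * x := by exact_mod_cast h
  have h'' : (x : ℝ) ≤ c + (1 / 4) * x := by exact_mod_cast h'
  have hc0 : (0 : ℝ) ≤ c := c.coe_nonneg
  have h2 : (x : ℝ) ≤ 2 * c := by linarith
  have h3 : x ≤ 2 * c := by exact_mod_cast h2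
  exact_mod_cast h3

theorem hEV0 (hEVF : StEVF) (hETY : StETY) (hEF1 : StEF1) (hEFB : StEFB) : StEV0 := by
  intro P Δ u j k θ E hS hO hj hE
  have hθ : 0 < θ := hO.th.1
  apply Subset.antisymm
  · intro y hy
    exact hy.1
  intro y hy
  refine ⟨hy, ?_⟩
  obtain ⟨hV1, -, -, hV4⟩ := hEVF P Δ u j k θ E hE hθ
  obtain ⟨-, -, hyQ, hall⟩ := hV1 y hy
  set Q := Qc P Δ u j k θ E y with hQ
  have hSub : Sub P Δ u j k θ E Q :=
    ⟨fun z hz => (hall z hz).1, fun z hz => ((hall z hz).2.2).le⟩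
  have h1 := ((hETY P Δ u j k θ E hE hθ).1 Q hSub).1
  obtain ⟨-, -, -, h2⟩ := hV4 Q hSub
  set F := Fo P u k (q0 P u) E with hF
  have h3 : volume ((F ∩ Q) \ Tc P Δ u j k θ E) ≤ ENNReal.ofReal (1 / 4) * volume (F ∩ Q) := by
    calc volume ((F ∩ Q) \ Tc P Δ u j k θ E) ≤ ENNReal.ofReal (θ / 4) * volume Q := h1
      _ ≤ ENNReal.ofReal (θ / 4) * (ENNReal.ofReal (1 / θ) * volume (F ∩ Q)) := by gcongr
      _ = ENNReal.ofReal (1 / 4) * volume (F ∩ Q) := by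
        rw [← mul_assoc, ← ENNReal.ofReal_mul (by positivity)]
        congr 2
        field_simp
  have hcov : F ∩ Q ⊆ (F ∩ Cn P Δ u j k 0 E ∩ Q) ∪ ((F ∩ Q) \ Tc P Δ u j k θ E) := by
    intro z hz
    by_cases hT : z ∈ Tc P Δ u j k θ E
    · left
      refine ⟨⟨hz.1, ?_⟩, hz.2⟩
      obtain ⟨-, -, -, -, q, hq0, hq1, hL⟩ := hEF1 P Δ u j k θ E z hS hO hj hE hT
      refine ⟨q, hq0, hq1.le, hL, ?_⟩
      have := (hS.unit (Δ.sl u j) (2 ^ (q - 3))).1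
      positivity
    · right
      exact ⟨hz, hT⟩
  have hBM : BM F := (hEFB.1 E (DD P u) (k - 2 ^ q0 P u)).2.2 hE
  have hfin : volume (F ∩ Q) ≠ ∞ :=
    ((measure_mono inter_subset_left).trans_lt hBM.2.measure_lt_top).ne
  apply ev0_num hfin
  calc volume (F ∩ Q) ≤ volume ((F ∩ Cn P Δ u j k 0 E ∩ Q) ∪ ((F ∩ Q) \ Tc P Δ u j k θ E)) :=
        measure_mono hcov
    _ ≤ volume (F ∩ Cn P Δ u j k 0 E ∩ Q) + volume ((F ∩ Q) \ Tc P Δ u j k θ E) := measure_union_le _ _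
    _ ≤ volume (F ∩ Cn P Δ u j k 0 E ∩ Q) + ENNReal.ofReal (1 / 4) * volume (F ∩ Q) := by gcongr

end Pool.Agent.Helper29.EP
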